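import Mathlib

set_option autoImplicit false

namespace Pool.Agent.Results.MP_e31007_co.RandicDisproof

open Finset

open Classical in
/-- The weight `1 / √(d_u d_v)` of an unordered pair `uv`. -/
noncomputable def weight {V : Type} [Fintype V] (G : SimpleGraph V) : Sym2 V → ℝ :=
  Sym2.lift ⟨fun u v => 1 / Real.sqrt ((G.degree u : ℝ) * (G.degree v : ℝ)),
    fun u v => by beta_reduce; rw [mul_comm]⟩

open Classical in
/-- The Randić index: the sum of `1 / √(d_u d_v)` over all edges `uv`. -/
noncomputable def randic {V : Type} [Fintype V] (G : SimpleGraph V) : ℝ :=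
  ∑ e ∈ G.edgeFinset, weight G e

open Classical in
lemma weight_mk {V : Type} [Fintype V] (G : SimpleGraph V) (u v : V) :
    weight G s(u, v) = 1 / Real.sqrt ((G.degree u : ℝ) * (G.degree v : ℝ)) := rfl

lemma deg_left (m : ℕ) [DecidableRel (completeBipartiteGraph (Fin 2) (Fin m)).Adj] (i : Fin 2) :
    (completeBipartiteGraph (Fin 2) (Fin m)).degree (Sum.inl i) = m := by
  classical
  rw [← SimpleGraph.card_neighborFinset_eq_degree]
  have : (completeBipartiteGraph (Fin 2) (Fin m)).neighborFinset (Sum.inl i)
      = (univ : Finset (Fin m)).map Function.Embedding.inr := by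
    ext x
    rw [SimpleGraph.mem_neighborFinset]
    rcases x with x | x <;> simp [completeBipartiteGraph]
  rw [this, card_map, card_univ, Fintype.card_fin]

lemma deg_right (m : ℕ) [DecidableRel (completeBipartiteGraph (Fin 2) (Fin m)).Adj] (i : Fin m) :
    (completeBipartiteGraph (Fin 2) (Fin m)).degree (Sum.inr i) = 2 := by
  classical
  rw [← SimpleGraph.card_neighborFinset_eq_degree]
  have : (completeBipartiteGraph (Fin 2) (Fin m)).neighborFinset (Sum.inr i)
      = (univ : Finset (Fin 2)).map Function.Embedding.inl := by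
    ext x
    rw [SimpleGraph.mem_neighborFinset]
    rcases x with x | x <;> simp [completeBipartiteGraph]
  rw [this, card_map, card_univ, Fintype.card_fin]

lemma card_edges (m : ℕ) [DecidableRel (completeBipartiteGraph (Fin 2) (Fin m)).Adj] :
    (completeBipartiteGraph (Fin 2) (Fin m)).edgeFinset.card = 2 * m := by
  have h := (completeBipartiteGraph (Fin 2) (Fin m)).sum_degrees_eq_twice_card_edges
  rw [Fintype.sum_sum_type] at h
  simp only [deg_left, deg_right] at h
  simp only [Finset.sum_const, Finset.card_univ, Fintype.card_fin, smul_eq_mul] at h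
  omega

lemma randic_eq (m : ℕ) (hm : 1 ≤ m) :
    randic (completeBipartiteGraph (Fin 2) (Fin m)) = Real.sqrt (2 * m) := by
  classical
  unfold randic
  have h1 : ∀ e ∈ (completeBipartiteGraph (Fin 2) (Fin m)).edgeFinset,
      weight (completeBipartiteGraph (Fin 2) (Fin m)) e = 1 / Real.sqrt (2 * m) := by
    intro e he
    induction e using Sym2.ind with
    | _ a b =>
      rw [SimpleGraph.mem_edgeFinset, SimpleGraph.mem_edgeSet] at he
      rw [weight_mk]
      rcases a with a | a <;> rcases b with b | b
      · simp [completeBipartiteGraph] at he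
      · rw [deg_left, deg_right]
        congr 2
        push_cast; ring
      · rw [deg_left, deg_right]
        congr 2
      · simp [completeBipartiteGraph] at he
  rw [Finset.sum_congr rfl h1, Finset.sum_const, card_edges, nsmul_eq_mul]
  have hpos : (0 : ℝ) < 2 * m := by
    have : (1 : ℝ) ≤ m := by exact_mod_cast hm
    linarith
  have hs : Real.sqrt (2 * m) ≠ 0 := (Real.sqrt_pos.mpr hpos).ne'
  push_cast
  rw [mul_one_div, div_eq_iff hs, Real.mul_self_sqrt hpos.le]

/-- For every `n ≥ 11` some connected graph on `n` vertices violates the conjectured inequality. -/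
theorem result (n : ℕ) (hn : 11 ≤ n) :
    ∃ (V : Type) (_ : Fintype V) (G : SimpleGraph V), Fintype.card V = n ∧ G.Connected ∧
      (n : ℝ) - 1 + Real.sqrt ((n : ℝ) - 1) < randic G + (G.indepNum : ℝ) := by
  classical
  obtain ⟨m, rfl⟩ : ∃ m, n = m + 2 := ⟨n - 2, by omega⟩
  refine ⟨Fin 2 ⊕ Fin m, inferInstance, completeBipartiteGraph (Fin 2) (Fin m), ?_, ?_, ?_⟩
  · simp; omega
  · have hadj : ∀ (i : Fin 2) (j : Fin m),
        (completeBipartiteGraph (Fin 2) (Fin m)).Adj (Sum.inl i) (Sum.inr j) := by
      intro i j
      simp [completeBipartiteGraph]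
    have j0 : Fin m := ⟨0, by omega⟩
    haveI : Nonempty (Fin 2 ⊕ Fin m) := ⟨Sum.inl 0⟩
    refine SimpleGraph.Connected.mk ?_
    have hr : ∀ x, (completeBipartiteGraph (Fin 2) (Fin m)).Reachable (Sum.inl 0) x := by
      rintro (x | x)
      · exact (hadj 0 j0).reachable.trans (hadj x j0).symm.reachable
      · exact (hadj 0 x).reachable
    intro x y
    exact (hr x).symm.trans (hr y)
  · rw [randic_eq m (by omega)]
    have hind : (m : ℝ) ≤ ((completeBipartiteGraph (Fin 2) (Fin m)).indepNum : ℝ) := by
      have h : (completeBipartiteGraph (Fin 2) (Fin m)).IsIndepSet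
          (((univ : Finset (Fin m)).map Function.Embedding.inr : Finset (Fin 2 ⊕ Fin m)) :
            Set (Fin 2 ⊕ Fin m)) := by
        intro x hx y hy _
        simp only [coe_map, coe_univ, Set.image_univ, Set.mem_range] at hx hy
        obtain ⟨a, rfl⟩ := hx
        obtain ⟨b, rfl⟩ := hy
        simp [completeBipartiteGraph]
      have h2 := h.card_le_indepNum
      rw [card_map, card_univ, Fintype.card_fin] at h2
      exact_mod_cast h2
    have hm : (9 : ℝ) ≤ m := by
      have : 9 ≤ m := by omega
      exact_mod_cast this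
    push_cast
    have h1 : ((m : ℝ) + 2 - 1) = m + 1 := by ring
    rw [h1]
    set s := Real.sqrt ((m : ℝ) + 1) with hs
    have hs0 : 0 ≤ s := Real.sqrt_nonneg _
    have hs2 : s ^ 2 = m + 1 := Real.sq_sqrt (by linarith)
    have hs3 : 3 < s := by
      by_contra hcon
      push Not at hcon
      nlinarith
    have hlt : 1 + s < Real.sqrt (2 * m) := by
      apply Real.lt_sqrt_of_sq_lt
      nlinarith
    linarith

end Pool.Agent.Results.MP_e31007_co.RandicDisproof
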